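import Pool.Agent.W984.LD.Asym

set_option autoImplicit false

/-!
# Low-diameter orderings: the optimal diameter is not logarithmic

Every ordering of a suitable `n`-vertex graph has an increasing path of weak diameter at least
`c (log n) ^ (3/2) / (log log n) ^ (5/2)`.
-/

namespace Pool.Agent.Results.MP_4a087e_lc.NotLogarithmic

open Filter

/-- `π` is a `d`-diameter ordering of `G`: it is injective, and any two vertices `x, y` of any
`π`-increasing path `p` satisfy `dist_G (x, y) ≤ d`. A path is `π`-increasing if the values of `π`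
along its list of vertices are increasing. -/
def IsDiameterOrdering {V : Type} (G : SimpleGraph V) (π : V → ℝ) (d : ℕ) : Prop :=
  Function.Injective π ∧ ∀ (u v : V) (p : G.Walk u v), p.IsPath →
    (p.support.map π).Pairwise (· < ·) → ∀ x ∈ p.support, ∀ y ∈ p.support, G.dist x y ≤ d

/-- `D n` is the least `d` such that every graph on `n` vertices has a `d`-diameter ordering. -/
noncomputable def D (n : ℕ) : ℕ :=
  sInf {d : ℕ | ∀ G : SimpleGraph (Fin n), ∃ π : Fin n → ℝ, IsDiameterOrdering G π d}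

theorem IsDiameterOrdering.mono {V : Type} {G : SimpleGraph V} {π : V → ℝ} {d d' : ℕ}
    (h : IsDiameterOrdering G π d) (hd : d ≤ d') : IsDiameterOrdering G π d' :=
  ⟨h.1, fun u v p hp hi x hx y hy => (h.2 u v p hp hi x hx y hy).trans hd⟩

/-- the set defining `D n` is nonempty -/
theorem D_nonempty (n : ℕ) :
    {d : ℕ | ∀ G : SimpleGraph (Fin n), ∃ π : Fin n → ℝ, IsDiameterOrdering G π d}.Nonempty := by
  classical
  refine ⟨∑ G : SimpleGraph (Fin n), ∑ x : Fin n, ∑ y : Fin n, G.dist x y, fun G => ?_⟩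
  refine ⟨fun i => (i : ℕ), ?_, ?_⟩
  · intro a b hab
    have : ((a : ℕ) : ℝ) = ((b : ℕ) : ℝ) := hab
    exact Fin.ext (by exact_mod_cast this)
  · intro u v p _ _ x _ y _
    calc G.dist x y ≤ ∑ y : Fin n, G.dist x y :=
          Finset.single_le_sum (f := fun y => G.dist x y) (fun _ _ => Nat.zero_le _)
            (Finset.mem_univ y)
      _ ≤ ∑ x : Fin n, ∑ y : Fin n, G.dist x y :=
          Finset.single_le_sum (f := fun x => ∑ y : Fin n, G.dist x y) (fun _ _ => Nat.zero_le _)
            (Finset.mem_univ x)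
      _ ≤ _ :=
          Finset.single_le_sum
            (f := fun G : SimpleGraph (Fin n) => ∑ x : Fin n, ∑ y : Fin n, G.dist x y)
            (fun _ _ => Nat.zero_le _) (Finset.mem_univ G)

/-- `D n` grows at least like `(log n) ^ (3/2) / (log log n) ^ (5/2)`; in particular
it is not `O(log n)`: for every constant `C` and all large `n` there is an `n`-vertex graph none
of whose orderings is a `d`-diameter ordering for any `d ≤ C log n`. -/
theorem result :
    (∃ c : ℝ, 0 < c ∧ ∀ᶠ n : ℕ in atTop,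
      c * (Real.log n) ^ (3 / 2 : ℝ) / (Real.log (Real.log n)) ^ (5 / 2 : ℝ) ≤ (D n : ℝ)) ∧
    (∀ C : ℝ, ∀ᶠ n : ℕ in atTop, ∃ G : SimpleGraph (Fin n), ∀ (π : Fin n → ℝ) (d : ℕ),
      (d : ℝ) ≤ C * Real.log n → ¬ IsDiameterOrdering G π d) := by
  constructor
  · refine ⟨1 / 66560, by norm_num, ?_⟩
    filter_upwards [Pool.Agent.W984.LD.key] with n hn
    obtain ⟨d, hd, G, hG⟩ := hn
    refine hd.trans ?_
    have h1 : d + 1 ≤ D n := by
      by_contra hlt
      rw [not_le, Nat.lt_succ_iff] at hlt
      obtain ⟨π, hπ⟩ := Nat.sInf_mem (D_nonempty n) G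
      exact hG π (IsDiameterOrdering.mono hπ hlt)
    exact_mod_cast h1
  · intro C
    have hlogt : Tendsto (fun n : ℕ => Real.log (n : ℝ)) atTop atTop :=
      Real.tendsto_log_atTop.comp tendsto_natCast_atTop_atTop
    have hloglogt : Tendsto (fun n : ℕ => Real.log (Real.log (n : ℝ))) atTop atTop :=
      Real.tendsto_log_atTop.comp hlogt
    filter_upwards [Pool.Agent.W984.LD.key,
      Pool.Agent.W984.LD.eventually_pow_le ((66560 * (|C| + 1)) ^ 2) 6,
      hloglogt.eventually_ge_atTop 1, hlogt.eventually_ge_atTop 1] with n hn hpow hl1 hL1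
    obtain ⟨d, hd, G, hG⟩ := hn
    refine ⟨G, fun π d0 hd0 hord => ?_⟩
    have hlt : (d0 : ℝ) < (d : ℝ) + 1 := by
      refine lt_of_lt_of_le (lt_of_le_of_lt hd0 ?_) hd
      set L : ℝ := Real.log n with hLdef
      set l : ℝ := Real.log L with hldef
      have hL0 : 0 < L := by linarith
      have hl0 : 0 < l := by linarith
      rw [Pool.Agent.W984.LD.rpow_three_half L hL0, Pool.Agent.W984.LD.rpow_five_half l hl0]
      have hsl : Real.sqrt l ≤ l := by
        rw [Real.sqrt_le_left hl0.le]
        nlinarith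
      have hsl0 : 0 < Real.sqrt l := Real.sqrt_pos.2 hl0
      have hsL : 66560 * (|C| + 1) * l ^ 3 ≤ Real.sqrt L := by
        apply Real.le_sqrt_of_sq_le
        calc (66560 * (|C| + 1) * l ^ 3) ^ 2 = (66560 * (|C| + 1)) ^ 2 * l ^ 6 := by ring
          _ ≤ L := hpow
      rw [lt_div_iff₀ (by positivity)]
      have h1 : l ^ 2 * Real.sqrt l ≤ l ^ 3 := by
        calc l ^ 2 * Real.sqrt l ≤ l ^ 2 * l := by gcongr
          _ = l ^ 3 := by ring
      have h2 : C * L * (l ^ 2 * Real.sqrt l) ≤ |C| * L * l ^ 3 := by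
        calc C * L * (l ^ 2 * Real.sqrt l) ≤ |C| * L * (l ^ 2 * Real.sqrt l) := by
              gcongr
              exact le_abs_self C
          _ ≤ |C| * L * l ^ 3 := by gcongr
      have h3 : |C| * L * l ^ 3 < (|C| + 1) * L * l ^ 3 := by
        have : 0 < L * l ^ 3 := by positivity
        nlinarith
      have h4 : (|C| + 1) * L * l ^ 3 ≤ 1 / 66560 * (L * Real.sqrt L) := by
        have h5 : 1 / 66560 * (L * (66560 * (|C| + 1) * l ^ 3)) ≤ 1 / 66560 * (L * Real.sqrt L) := by
          gcongr
        calc (|C| + 1) * L * l ^ 3 = 1 / 66560 * (L * (66560 * (|C| + 1) * l ^ 3)) := by ring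
          _ ≤ _ := h5
      linarith
    have hle : d0 ≤ d := by
      have : d0 < d + 1 := by exact_mod_cast hlt
      omega
    exact hG π (hord.mono hle)

end Pool.Agent.Results.MP_4a087e_lc.NotLogarithmic
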